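import Pool.Agent.WIR.StmtsE

/-! Squad WIR, row SCH (Scheffe). -/

set_option autoImplicit false

namespace Pool.Agent.WIR.H49

open Pool.Agent.WIR MeasureTheory Filter Topology
open scoped ENNReal BigOperators

theorem sch : SchStmt := by
  intro ν f g n0 hf hg hgt hint hlim
  have h1 : Tendsto (fun n => ∫⁻ x, (g x - f n x) ∂ν) atTop (𝓝 0) := by
    have h2 : ∀ᵐ x ∂ν, Tendsto (fun n => g x - f n x) atTop (𝓝 0) := by
      filter_upwards [hlim, ae_lt_top hg hgt] with x hx hxt
      have h3 := ENNReal.Tendsto.sub (tendsto_const_nhds (x := g x)) hx (Or.inl hxt.ne)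
      rwa [tsub_self] at h3
    have h4 := tendsto_lintegral_of_dominated_convergence g (fun n => hg.sub (hf n))
      (fun n => Eventually.of_forall (fun x => tsub_le_self)) hgt h2
    simpa using h4
  have h5 : ∀ n, n0 ≤ n → ∫⁻ x, ((f n x - g x) + (g x - f n x)) ∂ν =
      ∫⁻ x, (g x - f n x) ∂ν + ∫⁻ x, (g x - f n x) ∂ν := by
    intro n hn
    rw [lintegral_add_left (show Measurable (fun x => f n x - g x) from (hf n).sub hg)]
    congr 1
    have h6 : ∫⁻ x, f n x ∂ν + ∫⁻ x, (g x - f n x) ∂ν =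
        ∫⁻ x, g x ∂ν + ∫⁻ x, (f n x - g x) ∂ν := by
      rw [← lintegral_add_left (hf n), ← lintegral_add_left hg]
      refine lintegral_congr fun x => ?_
      rw [add_tsub_eq_max, add_tsub_eq_max, max_comm]
    rw [hint n hn] at h6
    exact ((ENNReal.add_right_inj hgt).mp h6).symm
  have h7 : Tendsto (fun n => ∫⁻ x, (g x - f n x) ∂ν + ∫⁻ x, (g x - f n x) ∂ν) atTop (𝓝 0) := by
    have h8 := h1.add h1
    rwa [add_zero] at h8
  refine h7.congr' ?_
  filter_upwards [eventually_ge_atTop n0] with n hn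
  exact (h5 n hn).symm

end Pool.Agent.WIR.H49
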