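import Pool.Agent.WIR.StmtsE

/-! Squad WIR, row UTS (units). -/

set_option autoImplicit false

namespace Pool.Agent.WIR.H49

open Pool.Agent.WIR MeasureTheory Filter Topology
open scoped ENNReal BigOperators

theorem three_not_unit {N : ℕ} (hN : 1 ≤ N) : ¬ IsUnit (3 : ZMod (3 ^ N)) := by
  intro h
  have h1 : (3 : ZMod (3 ^ N)) ^ N = 0 := by
    have := ZMod.natCast_self (3 ^ N)
    rwa [Nat.cast_pow] at this
  have h2 := h.pow N
  rw [h1] at h2
  have hlt : 1 < 3 ^ N := Nat.one_lt_pow (by omega) (by norm_num)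
  have : Fact (1 < 3 ^ N) := ⟨hlt⟩
  exact not_isUnit_zero h2

theorem nonunit_dvd {x : ℤ_[3]} (hx : ¬ IsUnit x) : ∃ y : ℤ_[3], x = 3 * y := by
  have h1 : ‖x‖ < 1 := by
    rw [← PadicInt.not_isUnit_iff]
    exact hx
  rw [PadicInt.norm_lt_one_iff_dvd] at h1
  obtain ⟨y, hy⟩ := h1
  exact ⟨y, by rw [hy]; norm_cast⟩

theorem unit_iff (N : ℕ) (x : ℤ_[3]) (hN : 1 ≤ N) :
    x ∈ U3 ↔ IsUnit (PadicInt.toZModPow N x) := by
  constructor
  · intro h
    exact IsUnit.map (PadicInt.toZModPow N) h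
  · intro h
    by_contra hx
    obtain ⟨y, rfl⟩ := nonunit_dvd hx
    rw [map_mul] at h
    have h2 := isUnit_of_mul_isUnit_left h
    have h3 : (PadicInt.toZModPow (p := 3) N) 3 = (3 : ZMod (3 ^ N)) := map_ofNat _ 3
    rw [h3] at h2
    exact three_not_unit hN h2

theorem fo_eq {N : ℕ} {O : Finset ℕ} (hO : O.Nonempty) :
    ∃ (p : ℕ) (w : ZMod (3 ^ N)), FO N O = (2 : ZMod (3 ^ N))⁻¹ ^ p + 3 * w := by
  classical
  refine ⟨O.min' hO, ?_⟩
  unfold FO
  rw [← Finset.add_sum_erase O _ (O.min'_mem hO)]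
  have h1 : rk O (O.min' hO) = 0 := by
    unfold rk
    rw [Finset.card_eq_zero, Finset.filter_eq_empty_iff]
    intro q hq hlt
    exact absurd (O.min'_le q hq) (not_le.mpr hlt)
  have h2 : (3 : ZMod (3 ^ N)) ∣ ∑ p ∈ O.erase (O.min' hO),
      3 ^ rk O p * (2 : ZMod (3 ^ N))⁻¹ ^ p := by
    refine Finset.dvd_sum fun p hp => ?_
    refine dvd_mul_of_dvd_left (dvd_pow_self _ ?_) _
    rw [Finset.mem_erase] at hp
    unfold rk
    rw [Finset.card_ne_zero]
    refine ⟨O.min' hO, Finset.mem_filter.mpr ⟨O.min'_mem hO, ?_⟩⟩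
    exact lt_of_le_of_ne (O.min'_le p hp.2) (Ne.symm hp.1)
  obtain ⟨w, hw⟩ := h2
  exact ⟨w, by rw [hw, h1, pow_zero, one_mul]⟩

theorem two_unit (N : ℕ) : IsUnit ((2 : ZMod (3 ^ N))⁻¹) := by
  have h1 : IsUnit ((2 : ℕ) : ZMod (3 ^ N)) := by
    rw [ZMod.isUnit_iff_coprime]
    exact Nat.Coprime.pow_right N (by norm_num)
  have h2 : ((2 : ℕ) : ZMod (3 ^ N)) * ((2 : ℕ) : ZMod (3 ^ N))⁻¹ = 1 :=
    ZMod.mul_inv_of_unit _ h1
  rw [Nat.cast_ofNat] at h2
  exact isUnit_of_mul_isUnit_right (h2.symm ▸ isUnit_one)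

open Classical in
theorem cnt_eq_zero {M N : ℕ} {S : Set ℕ} {x : ZMod (3 ^ N)}
    (h : ∀ O : Finset ℕ, O.card ∈ S → FO N O ≠ x) : cnt M S N x = 0 := by
  unfold cnt
  refine Finset.card_eq_zero.mpr (Finset.eq_empty_of_forall_notMem fun O hO => ?_)
  obtain ⟨_, hc, hF⟩ := Finset.mem_filter.mp hO
  exact h O hc hF

open Classical in
theorem cnt_eq_one {M N : ℕ} {S : Set ℕ} {x : ZMod (3 ^ N)}
    (h : ∀ O : Finset ℕ, (O.card ∈ S ∧ FO N O = x) ↔ O = ∅) : cnt M S N x = 1 := by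
  unfold cnt
  refine Finset.card_eq_one.mpr ⟨∅, Finset.ext fun O => ⟨fun hO => ?_, fun hO => ?_⟩⟩
  · rw [(h O).mp (Finset.mem_filter.mp hO).2]
    exact Finset.mem_singleton_self _
  · rw [Finset.mem_singleton] at hO
    refine Finset.mem_filter.mpr ⟨?_, (h O).mpr hO⟩
    rw [hO]
    exact Finset.empty_mem_powerset _

theorem cnt_zero {M l : ℕ} (hl : 1 ≤ l) {x : ℤ_[3]} (hx : ¬ IsUnit x) :
    cnt M {l} l (PadicInt.toZModPow l x) = 0 := by
  refine cnt_eq_zero fun O hc hF => ?_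
  rw [Set.mem_singleton_iff] at hc
  have hO : O.Nonempty := Finset.card_pos.mp (by omega)
  obtain ⟨p, w, hw⟩ := fo_eq (N := l) hO
  obtain ⟨y, rfl⟩ := nonunit_dvd hx
  have h3 : (PadicInt.toZModPow (p := 3) l) 3 = (3 : ZMod (3 ^ l)) := map_ofNat _ 3
  rw [map_mul, h3, hw] at hF
  have h4 : (2 : ZMod (3 ^ l))⁻¹ ^ p = 3 * (PadicInt.toZModPow l y - w) := by
    rw [mul_sub, ← hF]
    ring
  have h5 : IsUnit ((2 : ZMod (3 ^ l))⁻¹ ^ p) := (two_unit l).pow p
  rw [h4] at h5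
  exact three_not_unit hl (isUnit_of_mul_isUnit_left h5)

theorem cnt_one (M : ℕ) (y : ZMod (3 ^ 0)) : cnt M {0} 0 y = 1 := by
  refine cnt_eq_one fun O => ?_
  rw [Set.mem_singleton_iff, Finset.card_eq_zero]
  have : Subsingleton (ZMod (3 ^ 0)) := by
    rw [pow_zero]
    infer_instance
  exact ⟨fun h => h.1, fun h => ⟨h, Subsingleton.elim _ _⟩⟩

theorem uts (mea : MeaStmt) (apr : AprStmt) : UtsStmt := by
  classical
  obtain ⟨hprob, hmea⟩ := mea
  set g : ZMod (3 ^ 1) → ℝ≥0∞ := fun y => if IsUnit y then 1 else 0 with hg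
  obtain ⟨hm, hi⟩ := hmea 1 g
  have hU : U3 = (fun x : ℤ_[3] => g (PadicInt.toZModPow 1 x)) ⁻¹' {1} := by
    ext x
    rw [unit_iff 1 x le_rfl, Set.mem_preimage, Set.mem_singleton_iff]
    by_cases h : IsUnit (PadicInt.toZModPow 1 x)
    · have h1 : g (PadicInt.toZModPow 1 x) = 1 := if_pos h
      exact ⟨fun _ => h1, fun _ => h⟩
    · have h1 : g (PadicInt.toZModPow 1 x) = 0 := if_neg h
      rw [h1]
      exact ⟨fun h2 => absurd h2 h, fun h2 => absurd h2 zero_ne_one⟩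
  have hms : MeasurableSet U3 := by
    rw [hU]
    exact hm (measurableSet_singleton 1)
  refine ⟨hms, ?_, ?_, fun N x hN => unit_iff N x hN⟩
  · have h1 : ∫⁻ x, g (PadicInt.toZModPow 1 x) ∂μ3 = μ3 U3 := by
      rw [← lintegral_indicator_one hms]
      refine lintegral_congr fun x => ?_
      by_cases h : x ∈ U3
      · rw [Set.indicator_of_mem h]
        exact if_pos ((unit_iff 1 x le_rfl).mp h)
      · rw [Set.indicator_of_notMem h]
        have h' : ¬ IsUnit (PadicInt.toZModPow 1 x) := fun h2 =>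
          h ((unit_iff 1 x le_rfl).mpr h2)
        exact if_neg h'
    rw [← h1, hi]
    have h2 : ∑ y : ZMod (3 ^ 1), g y = 2 := by
      have : Fact (Nat.Prime (3 ^ 1)) := ⟨by norm_num⟩
      have h3 : ∀ y : ZMod (3 ^ 1), g y = if y = 0 then 0 else 1 := by
        intro y
        rw [hg]
        by_cases h : y = 0
        · simp [h]
        · simp [h]
      rw [Finset.sum_congr rfl (fun y _ => h3 y), Finset.sum_ite, Finset.sum_const_zero, zero_add,
        Finset.sum_const, nsmul_eq_mul, mul_one]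
      have h4 : ((Finset.univ : Finset (ZMod (3 ^ 1))).filter fun y => ¬ y = 0).card = 2 := by
        rw [Finset.filter_not, Finset.filter_eq' Finset.univ (0 : ZMod (3 ^ 1)),
          if_pos (Finset.mem_univ _), Finset.card_sdiff_of_subset (Finset.subset_univ _),
          Finset.card_univ, ZMod.card, Finset.card_singleton]
        norm_num
      rw [h4]
      norm_num
    rw [h2]
    norm_num
  · intro x hx n
    unfold sP
    have hx' : ¬ IsUnit x := hx
    rw [tsum_eq_single 0]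
    · rw [apr, Nat.add_zero, cnt_one]
      norm_num
    · intro l hl
      rw [apr, cnt_zero (by omega) hx']
      norm_num

end Pool.Agent.WIR.H49
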